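import Pool.Agent.helper36.UT.Spec

/-!
# Row ut:LTR (MP_37e5fa_nt): level 0 is good
-/

set_option autoImplicit false

open Filter Polynomial FirstOrder FirstOrder.Language

namespace Pool.Agent.UnivT

theorem LTR_bound (hTWA : TWA_stmt) (n : ℕ) (c : ℕ → ℚ) (a : ℚ) (H : ℕ) :
    |a + ∑ i ∈ Finset.range n, c i * (tow (H - (i + 1)) : ℚ)| ≤
      (|a| + ∑ i ∈ Finset.range n, |c i|) * (tow (H - 1) : ℚ) := by
  obtain ⟨hmono, hgt, -⟩ := hTWA
  have h1 : (1 : ℚ) ≤ tow (H - 1) := by
    have := hgt (H - 1)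
    exact_mod_cast (by omega : 1 ≤ tow (H - 1))
  refine (abs_add_le _ _).trans ?_
  rw [add_mul]
  refine add_le_add ?_ ?_
  · exact le_mul_of_one_le_right (abs_nonneg a) h1
  · rw [Finset.sum_mul]
    refine (Finset.abs_sum_le_sum_abs _ _).trans (Finset.sum_le_sum fun i _ => ?_)
    rw [abs_mul]
    refine mul_le_mul_of_nonneg_left ?_ (abs_nonneg _)
    rw [Nat.abs_cast]
    exact_mod_cast hmono.monotone (by omega : H - (i + 1) ≤ H - 1)

theorem LTR_tri (hTWA : TWA_stmt) : ∀ (n : ℕ) (b : ℕ → ℚ) (a : ℚ),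
    (∀ᶠ H : ℕ in atTop, a + ∑ i ∈ Finset.range n, b i * (tow (H - i) : ℚ) = a) ∨
    Tendsto (fun H : ℕ => a + ∑ i ∈ Finset.range n, b i * (tow (H - i) : ℚ)) atTop atTop ∨
    Tendsto (fun H : ℕ => a + ∑ i ∈ Finset.range n, b i * (tow (H - i) : ℚ)) atTop atBot := by
  intro n
  induction n with
  | zero =>
    intro b a
    left
    simp
  | succ n ih =>
    intro b a
    have hsplit : ∀ H : ℕ, a + ∑ i ∈ Finset.range (n + 1), b i * (tow (H - i) : ℚ) =
        (a + ∑ i ∈ Finset.range n, b (i + 1) * (tow (H - (i + 1)) : ℚ)) + b 0 * (tow H : ℚ) := by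
      intro H
      rw [Finset.sum_range_succ', Nat.sub_zero, add_assoc]
    by_cases hb : b 0 = 0
    · have hshift : ∀ H : ℕ, a + ∑ i ∈ Finset.range (n + 1), b i * (tow (H - i) : ℚ) =
          a + ∑ i ∈ Finset.range n, b (i + 1) * (tow ((H - 1) - i) : ℚ) := by
        intro H
        rw [hsplit, hb, zero_mul, add_zero]
        congr 1
        refine Finset.sum_congr rfl fun i _ => ?_
        rw [Nat.sub_sub, Nat.add_comm 1 i]
      have hsub : Tendsto (fun H : ℕ => H - 1) atTop atTop := tendsto_sub_atTop_nat 1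
      simp only [hshift]
      rcases ih (fun i => b (i + 1)) a with h | h | h
      · exact Or.inl (hsub.eventually h)
      · exact Or.inr (Or.inl (h.comp hsub))
      · exact Or.inr (Or.inr (h.comp hsub))
    · right
      obtain ⟨hmono, hgt, hK⟩ := hTWA
      have htow : Tendsto (fun H : ℕ => (tow H : ℚ)) atTop atTop :=
        tendsto_natCast_atTop_atTop.comp hmono.tendsto_atTop
      set C : ℚ := |a| + ∑ i ∈ Finset.range n, |b (i + 1)| with hC
      have hC0 : 0 ≤ C := add_nonneg (abs_nonneg _) (Finset.sum_nonneg fun _ _ => abs_nonneg _)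
      have hbp : 0 < |b 0| := abs_pos.2 hb
      have hsub : Tendsto (fun H : ℕ => H - 1) atTop atTop := tendsto_sub_atTop_nat 1
      have hev : ∀ᶠ H : ℕ in atTop,
          |a + ∑ i ∈ Finset.range n, b (i + 1) * (tow (H - (i + 1)) : ℚ)| ≤ |b 0| / 2 * (tow H : ℚ) := by
        filter_upwards [hsub.eventually (hK ⌈2 * C / |b 0|⌉₊), eventually_ge_atTop 1] with H h1 h2
        refine (LTR_bound ⟨hmono, hgt, hK⟩ n (fun i => b (i + 1)) a H).trans ?_
        rw [Nat.sub_add_cancel h2] at h1
        have h3 : 2 * C / |b 0| ≤ (⌈2 * C / |b 0|⌉₊ : ℚ) := Nat.le_ceil _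
        have h4 : (⌈2 * C / |b 0|⌉₊ : ℚ) * (tow (H - 1) : ℚ) ≤ (tow H : ℚ) := by exact_mod_cast h1
        have h5 : 2 * C / |b 0| * (tow (H - 1) : ℚ) ≤ (tow H : ℚ) :=
          (mul_le_mul_of_nonneg_right h3 (Nat.cast_nonneg _)).trans h4
        calc (|a| + ∑ i ∈ Finset.range n, |b (i + 1)|) * (tow (H - 1) : ℚ)
            = |b 0| / 2 * (2 * C / |b 0| * (tow (H - 1) : ℚ)) := by
              rw [← hC]
              field_simp
          _ ≤ |b 0| / 2 * (tow H : ℚ) := mul_le_mul_of_nonneg_left h5 (by positivity)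
      rcases lt_or_gt_of_ne hb with hneg | hpos
      · right
        have hlim : Tendsto (fun H : ℕ => b 0 / 2 * (tow H : ℚ)) atTop atBot :=
          Tendsto.const_mul_atTop_of_neg (by linarith) htow
        refine tendsto_atBot_mono' atTop ?_ hlim
        filter_upwards [hev] with H hH
        rw [hsplit H]
        rw [abs_of_neg hneg] at hH
        have := (abs_le.1 hH).2
        linarith
      · left
        have hlim : Tendsto (fun H : ℕ => b 0 / 2 * (tow H : ℚ)) atTop atTop :=
          Tendsto.const_mul_atTop (by linarith) htow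
        refine tendsto_atTop_mono' atTop ?_ hlim
        filter_upwards [hev] with H hH
        rw [hsplit H]
        rw [abs_of_pos hpos] at hH
        have := (abs_le.1 hH).1
        linarith

/-- A longer sum with coefficients zero. -/
theorem LTR_ext (n N : ℕ) (hnN : n ≤ N) (b : ℕ → ℚ) (H : ℕ) :
    ∑ i ∈ Finset.range n, b i * (tow (H - i) : ℚ) =
      ∑ i ∈ Finset.range N, (if i < n then b i else 0) * (tow (H - i) : ℚ) := by
  have h1 : ∑ i ∈ Finset.range n, b i * (tow (H - i) : ℚ) =
      ∑ i ∈ Finset.range n, (if i < n then b i else 0) * (tow (H - i) : ℚ) := by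
    refine Finset.sum_congr rfl fun i hi => ?_
    rw [if_pos (Finset.mem_range.1 hi)]
  rw [h1]
  refine Finset.sum_subset (Finset.range_mono hnN) fun i _ hi => ?_
  rw [if_neg (fun h => hi (Finset.mem_range.2 h)), zero_mul]

theorem LTR (hTWA : TWA_stmt) : LTR_stmt := by
  refine ⟨fun c => ⟨c, 0, fun _ => 0, ?_⟩, ?_, ?_, ?_⟩
  · refine Filter.Eventually.of_forall fun H => ?_
    simp
  · rintro f g ⟨a, n, b, hf⟩ ⟨a', n', b', hg⟩
    refine ⟨a - a', max n n', fun i => (if i < n then b i else 0) - (if i < n' then b' i else 0), ?_⟩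
    filter_upwards [hf, hg] with H h1 h2
    rw [Int.cast_sub, h1, h2, LTR_ext n (max n n') (le_max_left _ _), LTR_ext n' (max n n') (le_max_right _ _)]
    simp only [sub_mul, Finset.sum_sub_distrib]
    ring
  · rintro f g ⟨a, n, b, hf⟩ hfg
    refine ⟨a, n, b, ?_⟩
    filter_upwards [hf, hfg] with H h1 h2
    rw [← h2, h1]
  · rintro f ⟨a, n, b, hf⟩
    rcases LTR_tri hTWA n b a with h | h | h
    · left
      have h3 : ∀ᶠ H : ℕ in atTop, (f H : ℚ) = a := by
        filter_upwards [hf, h] with H h1 h2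
        rw [h1, h2]
      obtain ⟨H₀, hH₀⟩ := h3.exists
      refine ⟨f H₀, ?_⟩
      filter_upwards [h3] with H h4
      have h5 : (f H : ℚ) = (f H₀ : ℚ) := by rw [h4, hH₀]
      exact_mod_cast h5
    · right; left
      have h1 : Tendsto (fun H : ℕ => (f H : ℚ)) atTop atTop :=
        h.congr' (by filter_upwards [hf] with H h1; exact h1.symm)
      exact tendsto_intCast_atTop_iff.1 h1
    · right; right
      have h1 : Tendsto (fun H : ℕ => (f H : ℚ)) atTop atBot :=
        h.congr' (by filter_upwards [hf] with H h1; exact h1.symm)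
      exact tendsto_intCast_atBot_iff.1 h1

end Pool.Agent.UnivT
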