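import Pool.Agent.helper36.UT.Spec

/-!
# Row ut:MEA (MP_37e5fa_nt): the meaning of the two sentences in the integers
-/

set_option autoImplicit false

open Filter Polynomial FirstOrder FirstOrder.Language

namespace Pool.Agent.UnivT

theorem MEA_gen (T : ℤ → ℤ) (F : ℕ → ℕ) (hT : ∀ n : ℕ, T n = F n) (hF : ∀ n, 2 ≤ F n) :
    (∀ m : ℤ, ∃ n x y : ℤ, m < n ∧ (1 < x ∧ 1 < y) ∧ x * y = T n) ↔ {n : ℕ | ¬ (F n).Prime}.Infinite := by
  constructor
  · intro h
    refine Set.infinite_of_forall_exists_gt fun a => ?_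
    obtain ⟨n, x, y, hn, ⟨hx, hy⟩, hxy⟩ := h a
    obtain ⟨k, rfl⟩ : ∃ k : ℕ, n = k := ⟨n.toNat, by rw [Int.toNat_of_nonneg (by omega)]⟩
    refine ⟨k, ?_, by exact_mod_cast hn⟩
    rw [hT] at hxy
    have h3 : x.toNat * y.toNat = F k := by
      have : ((x.toNat * y.toNat : ℕ) : ℤ) = (F k : ℤ) := by
        push_cast
        rw [Int.toNat_of_nonneg (by omega), Int.toNat_of_nonneg (by omega), hxy]
      exact_mod_cast this
    show ¬ (F k).Prime
    rw [← h3]
    exact Nat.not_prime_mul (by omega) (by omega)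
  · intro h m
    obtain ⟨k, hk, hmk⟩ := h.exists_gt m.toNat
    have hk' : ¬ (F k).Prime := hk
    obtain ⟨a, ha1, ha2⟩ := Nat.exists_dvd_of_not_prime2 (hF k) hk'
    obtain ⟨ha3, ha4⟩ := ha2
    obtain ⟨b, hb⟩ := ha1
    have hb1 : 1 < b := by
      by_contra hb1
      have : b = 0 ∨ b = 1 := by omega
      have hFk := hF k
      rcases this with rfl | rfl
      · omega
      · omega
    refine ⟨k, a, b, by omega, ⟨by exact_mod_cast (by omega : 1 < a), by exact_mod_cast hb1⟩, ?_⟩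
    rw [hT, hb]
    push_cast
    rfl

theorem MEA_lt (x y : Lb.Term (Empty ⊕ Fin 4)) (v : Empty → ℤ) (xs : Fin 4 → ℤ) :
    (fLt x y).Realize v xs ↔ x.realize (Sum.elim v xs) < y.realize (Sum.elim v xs) := Iff.rfl

theorem MEA_add {α : Type} (x y : Lb.Term α) (v : α → ℤ) :
    (tAdd x y).realize v = x.realize v + y.realize v := rfl

theorem MEA_mul {α : Type} (x y : Lb.Term α) (v : α → ℤ) :
    (tMul x y).realize v = x.realize v * y.realize v := rfl

theorem MEA_pow {α : Type} (x : Lb.Term α) (v : α → ℤ) :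
    (tPow x).realize v = 2 ^ (x.realize v).toNat := rfl

theorem MEA_one {α : Type} (v : α → ℤ) : (tOne : Lb.Term α).realize v = 1 := rfl

theorem MEA_var (i : Fin 4) (v : Empty → ℤ) (xs : Fin 4 → ℤ) :
    (tVar i).realize (Sum.elim v xs) = xs i := rfl

theorem MEA_real (t : Lb.Term (Empty ⊕ Fin 4)) (g : ℤ → ℤ)
    (hg : ∀ (v : Empty → ℤ) (xs : Fin 4 → ℤ), t.realize (Sum.elim v xs) = g (xs 1)) :
    (ℤ ⊨ (matrix t).ex.ex.ex.all) ↔ ∀ m : ℤ, ∃ n x y : ℤ, m < n ∧ (1 < x ∧ 1 < y) ∧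
      x * y = 2 ^ ((2 : ℤ) ^ (g n).toNat).toNat + 1 := by
  unfold Sentence.Realize Formula.Realize matrix
  simp only [BoundedFormula.realize_all, BoundedFormula.realize_ex, BoundedFormula.realize_inf,
    BoundedFormula.realize_bdEqual, MEA_lt, MEA_add, MEA_mul, MEA_pow, MEA_one, MEA_var, hg]
  rfl

theorem MEA_two (e : ℕ) : ((2 : ℤ) ^ e).toNat = 2 ^ e := by
  have : ((2 : ℤ) ^ e) = ((2 ^ e : ℕ) : ℤ) := by push_cast; rfl
  rw [this, Int.toNat_natCast]

theorem MEA : MEA_stmt := by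
  constructor
  · unfold infinitelyManyComposite
    rw [MEA_real (tVar 1) (fun n => n) (fun v xs => rfl)]
    refine MEA_gen (fun n => 2 ^ ((2 : ℤ) ^ n.toNat).toNat + 1) Nat.fermatNumber ?_ ?_
    · intro n
      rw [Int.toNat_natCast, MEA_two]
      unfold Nat.fermatNumber
      push_cast
      rfl
    · intro n
      have := Nat.three_le_fermatNumber n
      omega
  · unfold infinitelyManyCompositeNN
    rw [MEA_real (tAdd (tVar 1) (tPow (tVar 1))) (fun n => n + 2 ^ n.toNat) (fun v xs => rfl)]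
    refine MEA_gen (fun n => 2 ^ ((2 : ℤ) ^ (n + 2 ^ n.toNat).toNat).toNat + 1)
      (fun s => (2 ^ 2 ^ s) ^ (2 ^ 2 ^ s) + 1) ?_ ?_
    · intro n
      have h1 : ((n : ℤ) + 2 ^ (n : ℤ).toNat).toNat = n + 2 ^ n := by
        rw [Int.toNat_natCast]
        have : ((n : ℤ) + 2 ^ n) = ((n + 2 ^ n : ℕ) : ℤ) := by push_cast; rfl
        rw [this, Int.toNat_natCast]
      simp only [h1, MEA_two]
      have h2 : (2 ^ 2 ^ n) ^ (2 ^ 2 ^ n) = 2 ^ 2 ^ (n + 2 ^ n) := by
        rw [← pow_mul, pow_add]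
      rw [h2]
      push_cast
      rfl
    · intro n
      have : 1 ≤ (2 ^ 2 ^ n) ^ (2 ^ 2 ^ n) := Nat.one_le_pow _ _ (Nat.pos_of_ne_zero (by positivity))
      omega

end Pool.Agent.UnivT
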