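import Pool.Agent.helper36.UT.Spec

/-!
# Row ut:MUL (MP_37e5fa_nt): products
-/

set_option autoImplicit false

open Filter Polynomial FirstOrder FirstOrder.Language

namespace Pool.Agent.UnivT

/-- A good class is closed under sums. -/
theorem MUL_add (C : (ℕ → ℤ) → Prop) (hC : Good C) (f g : ℕ → ℤ) (hf : C f) (hg : C g) :
    C fun H => f H + g H := by
  obtain ⟨h1, h2, h3, -⟩ := hC
  refine h3 _ _ (h2 f (fun H => 0 - g H) hf (h2 (fun _ => 0) g (h1 0) hg)) ?_
  refine Filter.Eventually.of_forall fun H => ?_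
  simp only [zero_sub, sub_neg_eq_add]

theorem MUL (hLGD : LGD_stmt) : MUL_stmt := by
  rintro k f g ⟨l, hl, hf⟩ ⟨m, hm, hg⟩
  refine ⟨mulL l m, ?_, ?_⟩
  · intro z hz
    rw [mulL, List.mem_flatMap] at hz
    obtain ⟨x, hx, hz⟩ := hz
    rw [List.mem_map] at hz
    obtain ⟨y, hy, rfl⟩ := hz
    exact MUL_add (Lev k) (hLGD k) x.2 y.2 (hl x hx) (hm y hy)
  · filter_upwards [hf, hg] with H h1 h2
    rw [ev_mulL, Int.cast_mul, h1, h2]

end Pool.Agent.UnivT
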